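import Pool.Agent.Helper77.OF4.St

/-!
# Project OF4 (MP_7a9ddc_co), module C3
-/

set_option autoImplicit false

namespace Pool.Agent.Helper72.OF4.C3

open Equiv Equiv.Perm Pool.Agent.Helper35.PM Pool.Agent.Helper77.HY Pool.Agent.Helper77.OF4

theorem eN_le {V : Type} [Finite V] (G : SimpleGraph V) (A : Finset V) :
    eN G A ≤ (A.card + 1).choose 2 := by
  classical
  unfold eN
  rw [← Finset.card_sym2, ← Set.ncard_coe_finset]
  apply Set.ncard_le_ncard _ (Set.toFinite _)
  intro e he
  rw [Finset.mem_coe, Finset.mem_sym2_iff]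
  exact he.2

open scoped Classical in
/-- the vertex of `HG` -/
noncomputable def io {V : Type} (S : Finset V) (v : V) : Option {v : V // v ∈ S} :=
  if h : v ∈ S then some ⟨v, h⟩ else none

theorem io_mem {V : Type} {S : Finset V} {v : V} (h : v ∈ S) : io S v = some ⟨v, h⟩ := dif_pos h

theorem io_inj {V : Type} {S : Finset V} {v w : V} (hv : v ∈ S) (hw : w ∈ S)
    (h : io S v = io S w) : v = w := by
  rw [io_mem hv, io_mem hw] at h
  exact congrArg Subtype.val (Option.some.inj h)

theorem edges {V : Type} [Finite V] (G : SimpleGraph V) (W : Set V) (S : Finset V)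
    [Fintype (Option {v : V // v ∈ S})] :
    eN G S + {v : V | v ∈ S ∧ ∃ w ∈ W, G.Adj v w}.ncard ≤ eN (HG G W S) Finset.univ := by
  classical
  have i1 : Set.InjOn (Sym2.map (io S)) {e : Sym2 V | e ∈ G.edgeSet ∧ ∀ v ∈ e, v ∈ S} := by
    rintro ⟨a, b⟩ ha ⟨c, d⟩ hc h
    have ha1 : a ∈ S := ha.2 a (Sym2.mem_mk_left a b)
    have hb1 : b ∈ S := ha.2 b (Sym2.mem_mk_right a b)
    have hc1 : c ∈ S := hc.2 c (Sym2.mem_mk_left c d)
    have hd1 : d ∈ S := hc.2 d (Sym2.mem_mk_right c d)
    have h' : s(io S a, io S b) = s(io S c, io S d) := h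
    rcases Sym2.eq_iff.1 h' with ⟨h1, h2⟩ | ⟨h1, h2⟩
    · exact Sym2.eq_iff.2 (Or.inl ⟨io_inj ha1 hc1 h1, io_inj hb1 hd1 h2⟩)
    · exact Sym2.eq_iff.2 (Or.inr ⟨io_inj ha1 hd1 h1, io_inj hb1 hc1 h2⟩)
  have i2 : Set.InjOn (fun v => s(io S v, none)) {v : V | v ∈ S ∧ ∃ w ∈ W, G.Adj v w} := by
    intro v hv w hw h
    have h' : s(io S v, none) = s(io S w, none) := h
    rcases Sym2.eq_iff.1 h' with ⟨h1, -⟩ | ⟨h1, h2⟩
    · exact io_inj hv.1 hw.1 h1
    · rw [io_mem hv.1] at h1
      exact absurd h1 (Option.some_ne_none _)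
  have hdis : Disjoint (Sym2.map (io S) '' {e : Sym2 V | e ∈ G.edgeSet ∧ ∀ v ∈ e, v ∈ S})
      ((fun v => s(io S v, none)) '' {v : V | v ∈ S ∧ ∃ w ∈ W, G.Adj v w}) := by
    rw [Set.disjoint_left]
    rintro _ ⟨⟨a, b⟩, ha, rfl⟩ ⟨v, hv, h⟩
    have ha1 : a ∈ S := ha.2 a (Sym2.mem_mk_left a b)
    have hb1 : b ∈ S := ha.2 b (Sym2.mem_mk_right a b)
    have h' : s(io S v, none) = s(io S a, io S b) := h
    rw [io_mem ha1, io_mem hb1] at h'
    rcases Sym2.eq_iff.1 h' with ⟨-, h2⟩ | ⟨-, h2⟩
    · exact absurd h2.symm (Option.some_ne_none _)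
    · exact absurd h2.symm (Option.some_ne_none _)
  have hu := Set.ncard_union_eq hdis (Set.toFinite _) (Set.toFinite _)
  rw [i1.ncard_image, i2.ncard_image] at hu
  have hsub : (Sym2.map (io S) '' {e : Sym2 V | e ∈ G.edgeSet ∧ ∀ v ∈ e, v ∈ S}) ∪
      ((fun v => s(io S v, none)) '' {v : V | v ∈ S ∧ ∃ w ∈ W, G.Adj v w}) ⊆
      {e : Sym2 (Option {v : V // v ∈ S}) | e ∈ (HG G W S).edgeSet ∧
        ∀ v ∈ e, v ∈ (Finset.univ : Finset (Option {v : V // v ∈ S}))} := by
    rintro _ (⟨⟨a, b⟩, ha, rfl⟩ | ⟨v, hv, rfl⟩)
    · refine ⟨?_, fun v _ => Finset.mem_univ v⟩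
      have ha1 : a ∈ S := ha.2 a (Sym2.mem_mk_left a b)
      have hb1 : b ∈ S := ha.2 b (Sym2.mem_mk_right a b)
      change s(io S a, io S b) ∈ (HG G W S).edgeSet
      rw [io_mem ha1, io_mem hb1, SimpleGraph.mem_edgeSet]
      exact ha.1
    · refine ⟨?_, fun v _ => Finset.mem_univ v⟩
      change s(io S v, none) ∈ (HG G W S).edgeSet
      rw [io_mem hv.1, SimpleGraph.mem_edgeSet]
      exact hv.2
  unfold eN
  rw [← hu]
  exact Set.ncard_le_ncard hsub (Set.toFinite _)

/-- C3 -/
theorem main (hC2 : StC2) (hEub : StEub) (hSub : StSub) (hCnt : StCnt) : StC3 := by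
  classical
  intro V _ G W hP hT hO
  cases nonempty_fintype V
  have key : ∀ n : ℕ, ∀ S : Finset V, S.card ≤ n → (∀ v ∈ S, v ∉ W) →
      eN G S + {v : V | v ∈ S ∧ ∃ w ∈ W, G.Adj v w}.ncard ≤ 2 * S.card := by
    intro n
    induction n with
    | zero =>
      intro S hS _
      have h0 : S = ∅ := Finset.card_eq_zero.1 (Nat.le_zero.1 hS)
      subst h0
      have h1 := eN_le G ∅
      have h2 : {v : V | v ∈ (∅ : Finset V) ∧ ∃ w ∈ W, G.Adj v w} = ∅ := by
        ext v
        simp
      rw [h2, Set.ncard_empty]
      simpa using h1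
    | succ n ih =>
      intro S hS hSW
      have hN : {v : V | v ∈ S ∧ ∃ w ∈ W, G.Adj v w}.ncard ≤ S.card := by
        rw [← Set.ncard_coe_finset S]
        exact Set.ncard_le_ncard (fun v hv => hv.1) (Set.toFinite _)
      rcases Nat.lt_or_ge S.card 2 with hlt | hge
      · have h1 := eN_le G S
        have h2 : (S.card + 1).choose 2 ≤ S.card := by
          interval_cases S.card <;> decide
        omega
      · obtain ⟨R', O, hRO⟩ := hO S hSW
        have hcard : Fintype.card (Option {v : V // v ∈ S}) = S.card + 1 := by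
          rw [Fintype.card_option, Fintype.card_coe]
        by_cases hc : (HG G W S).Connected
        · have h1 := hC2 _ (HG G W S) R' 4 O hc (by omega) hRO
          have h2 := edges G W S
          rw [hcard] at h1
          omega
        · -- the part which is not connected with `none`
          obtain ⟨A, hA⟩ : ∃ A : Finset V, A = S.filter fun v =>
            ¬ (HG G W S).Reachable none (io S v) := ⟨_, rfl⟩
          have hAS : A ⊆ S := by
            rw [hA]
            exact Finset.filter_subset _ _
          have hne : A.Nonempty := by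
            by_contra h
            rw [Finset.not_nonempty_iff_eq_empty] at h
            apply hc
            rw [SimpleGraph.connected_iff_exists_forall_reachable]
            refine ⟨none, ?_⟩
            rintro (_ | ⟨v, hv⟩)
            · exact SimpleGraph.Reachable.refl _
            · by_contra h2
              have h3 : v ∈ A := by
                rw [hA, Finset.mem_filter, io_mem hv]
                exact ⟨hv, h2⟩
              rw [h] at h3
              exact absurd h3 (Finset.notMem_empty v)
          have hAdj : ∀ u ∈ S, ∀ v ∈ S, G.Adj u v → v ∈ A → u ∈ A := by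
            intro u hu v hv huv hvA
            rw [hA, Finset.mem_filter] at hvA ⊢
            refine ⟨hu, fun h => hvA.2 (h.trans ?_)⟩
            apply SimpleGraph.Adj.reachable
            rw [io_mem hu, io_mem hv]
            exact huv
          have hAN : ∀ v ∈ A, ¬ ∃ w ∈ W, G.Adj v w := by
            intro v hvA h
            have hv := hAS hvA
            rw [hA, Finset.mem_filter] at hvA
            apply hvA.2
            apply SimpleGraph.Adj.reachable
            rw [io_mem hv]
            exact h
          have hcardA : 0 < A.card := Finset.card_pos.2 hne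
          have hsd : (S \ A).card + A.card = S.card := Finset.card_sdiff_add_card_eq_card hAS
          have hIH := ih (S \ A) (by omega) (fun v hv => hSW v (Finset.mem_sdiff.1 hv).1)
          have hN2 : {v : V | v ∈ S ∧ ∃ w ∈ W, G.Adj v w}.ncard ≤
              {v : V | v ∈ S \ A ∧ ∃ w ∈ W, G.Adj v w}.ncard := by
            apply Set.ncard_le_ncard _ (Set.toFinite _)
            intro v hv
            exact ⟨Finset.mem_sdiff.2 ⟨hv.1, fun h => hAN v h hv.2⟩, hv.2⟩
          have hE : eN G S ≤ eN G A + eN G (S \ A) := by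
            unfold eN
            refine le_trans (Set.ncard_le_ncard ?_ (Set.toFinite _))
              (Set.ncard_union_le {e : Sym2 V | e ∈ G.edgeSet ∧ ∀ v ∈ e, v ∈ A}
                {e : Sym2 V | e ∈ G.edgeSet ∧ ∀ v ∈ e, v ∈ S \ A})
            rintro ⟨a, b⟩ he
            have ha : a ∈ S := he.2 a (Sym2.mem_mk_left a b)
            have hb : b ∈ S := he.2 b (Sym2.mem_mk_right a b)
            have hab : G.Adj a b := he.1
            by_cases h : a ∈ A
            · left
              refine ⟨he.1, ?_⟩
              intro v hv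
              rcases Sym2.mem_iff.1 hv with rfl | rfl
              · exact h
              · exact hAdj _ hb _ ha hab.symm h
            · right
              refine ⟨he.1, ?_⟩
              intro v hv
              rcases Sym2.mem_iff.1 hv with rfl | rfl
              · exact Finset.mem_sdiff.2 ⟨ha, h⟩
              · exact Finset.mem_sdiff.2 ⟨hb, fun h' => h (hAdj _ ha _ hb hab h')⟩
          have hEA : eN G A ≤ 2 * A.card := by
            rcases Nat.lt_or_ge A.card 3 with h3 | h3
            · have h1 := eN_le G A
              have h2 : (A.card + 1).choose 2 ≤ 2 * A.card := by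
                interval_cases A.card <;> decide
              omega
            · have hcA : Fintype.card (A : Set V) = A.card := by
                simp
              have h1 := (hEub (A : Set V) (G.induce (A : Set V))
                (hSub V (A : Set V) G (G.induce (A : Set V)) Subtype.val hP
                  Subtype.val_injective (fun w w' h => h))
                (fun a b c h1 h2 h3 => hT a.1 b.1 c.1 h1 h2 h3)).1 (by omega)
              have h2 := hCnt.2.2.2 V G A
              rw [hcA] at h1
              have h4 : eN (G.induce (A : Set V)) Finset.univ = eN G A := by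
                rw [← h2]
              omega
          omega
  intro S hS
  exact key S.card S le_rfl hS

end Pool.Agent.Helper72.OF4.C3
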